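import Pool.Agent.Run7.h951.BG.Stm

/-! # Pieces POS, SIG, AVG of the project BG (MP_58ffb3_an) -/

set_option autoImplicit false

open MeasureTheory Filter Topology Polynomial

namespace Pool.Agent.Run7.h784.BG

open Pool.Agent.Run7.h951.BG

theorem lle (x : ℝ) : Real.log x ≤ Real.posLog x := by
  rw [Real.posLog_def]
  exact le_max_right _ _

theorem cint {f : ℂ → ℝ} (hf : Continuous f) (c : ℂ) (r : ℝ) : CircleIntegrable f c r :=
  ContinuousOn.circleIntegrable' hf.continuousOn

theorem avg_log (z : ℂ) {r : ℝ} (hr : 0 < r) (hz : 0 < ‖z‖) :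
    Real.log ‖z‖ ≤ Real.circleAverage (fun w => Real.log ‖w‖) z r := by
  have h := circleAverage_log_norm_sub_const_eq_log_radius_add_posLog (c := z) (a := 0) hr.ne'
  simp only [sub_zero] at h
  rw [h]
  have h1 : Real.log (r⁻¹ * ‖z‖) ≤ Real.posLog (r⁻¹ * ‖z‖) := (lle _)
  rw [Real.log_mul (inv_pos.2 hr).ne' hz.ne', Real.log_inv] at h1
  linarith

theorem t_POS : S_POS := by
  refine ⟨?_, fun z => EReal.coe_ne_top _, ?_⟩
  · have h1 : Continuous fun z : ℂ => ((Real.posLog ‖z‖ : ℝ) : EReal) :=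
      continuous_coe_real_ereal.comp (Real.continuous_posLog.comp continuous_norm)
    exact h1.upperSemicontinuous
  · intro z r hr g hg hle
    have hle' : ∀ w, ‖w - z‖ = r → Real.posLog ‖w‖ ≤ g w := fun w hw =>
      EReal.coe_le_coe_iff.1 (hle w hw)
    rw [EReal.coe_le_coe_iff]
    by_cases hz : ‖z‖ ≤ 1
    · have h1 : Real.posLog ‖z‖ = 0 := by
        rw [Real.posLog_eq_zero_iff, abs_of_nonneg (norm_nonneg _)]
        exact hz
      rw [h1]
      apply Real.circleAverage_nonneg_of_nonneg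
      intro w hw
      rw [mem_sphere_iff_norm, abs_of_pos hr] at hw
      exact le_trans Real.posLog_nonneg (hle' w hw)
    · push Not at hz
      have h1 : Real.posLog ‖z‖ = Real.log ‖z‖ := by
        rw [Real.posLog_eq_log]
        rw [abs_of_nonneg (norm_nonneg _)]
        exact hz.le
      rw [h1]
      refine (avg_log z hr (by linarith)).trans ?_
      apply Real.circleAverage_mono
      · have := circleIntegrable_log_norm_sub_const (c := z) (a := 0) r
        simpa using this
      · exact cint hg z r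
      · intro w hw
        rw [mem_sphere_iff_norm, abs_of_pos hr] at hw
        exact le_trans (lle _) (hle' w hw)

theorem t_SIG : S_SIG := by
  have hpi : (0 : ℝ) < 2 * Real.pi := Real.two_pi_pos
  have hm : Measurable (circleMap (0 : ℂ) 1) := (continuous_circleMap 0 1).measurable
  refine ⟨⟨?_⟩, ?_, ?_⟩
  · unfold sig
    rw [Measure.smul_apply, Measure.map_apply hm MeasurableSet.univ, Set.preimage_univ,
      Measure.restrict_apply_univ, Real.volume_Ioc, smul_eq_mul, sub_zero,
      ← ENNReal.ofReal_mul (inv_pos.2 hpi).le, inv_mul_cancel₀ hpi.ne', ENNReal.ofReal_one]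
  · unfold sig
    rw [Measure.smul_apply, Measure.map_apply hm Metric.isClosed_sphere.measurableSet.compl]
    have : circleMap (0 : ℂ) 1 ⁻¹' (Metric.sphere (0 : ℂ) 1)ᶜ = ∅ := by
      ext θ
      simp
    rw [this]
    simp
  · intro f hf
    unfold sig
    rw [integral_smul_measure, integral_map hm.aemeasurable hf.aestronglyMeasurable,
      ENNReal.toReal_ofReal (inv_pos.2 hpi).le, Real.circleAverage_def,
      intervalIntegral.integral_of_le hpi.le]

theorem avg_rot {f : ℂ → ℝ} (hf : Continuous f) {ω : ℂ} (hω : ‖ω‖ = 1) :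
    Real.circleAverage (fun z => f (ω * z)) 0 1 = Real.circleAverage f 0 1 := by
  rw [Real.circleAverage_eq_integral_add (f := f) (c := 0) (R := 1) ω.arg, Real.circleAverage_def]
  congr 1
  apply intervalIntegral.integral_congr
  intro θ _
  simp only
  congr 1
  rw [circleMap_zero, circleMap_zero]
  have h1 : ω = Complex.exp (ω.arg * Complex.I) := by
    have := Complex.norm_mul_exp_arg_mul_I ω
    rw [hω] at this
    simpa using this.symm
  conv_lhs => rw [h1]
  rw [mul_left_comm, ← Complex.exp_add]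
  congr 2
  push_cast
  ring

theorem t_AVG : S_ROOT → S_AVG := by
  rintro ⟨-, hcard, -, hnorm, hmul, happ⟩ f hf ε hε
  have hcomp : IsCompact (Metric.sphere (0 : ℂ) 1) := isCompact_sphere _ _
  have huc := hcomp.uniformContinuousOn_of_continuous hf.continuousOn
  rw [Metric.uniformContinuousOn_iff] at huc
  obtain ⟨δ, hδ, hfδ⟩ := huc ε hε
  obtain ⟨J, hJ⟩ : ∃ J : ℕ, 7 / δ < (2 : ℝ) ^ J := pow_unbounded_of_one_lt _ (by norm_num)
  refine ⟨J, fun j hj z hz => ?_⟩
  have h2 : (0 : ℝ) < 2 ^ j := by positivity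
  have hj7 : 7 / (2 : ℝ) ^ j < δ := by
    rw [div_lt_iff₀ h2]
    have h3 : (2 : ℝ) ^ J ≤ 2 ^ j := pow_le_pow_right₀ (by norm_num) hj
    rw [div_lt_iff₀ hδ] at hJ
    nlinarith
  let F : ℂ → ℝ := fun z => (2 ^ j : ℝ)⁻¹ * ∑ ω ∈ Rt j, f (ω * z)
  have hFc : Continuous F := by
    refine continuous_const.mul (continuous_finsetSum _ fun ω _ => ?_)
    exact hf.comp (continuous_const.mul continuous_id)
  -- rotation invariance
  have hFrot : ∀ ω₀ ∈ Rt j, ∀ w, F (ω₀ * w) = F w := by
    intro ω₀ hω₀ w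
    show (2 ^ j : ℝ)⁻¹ * ∑ ω ∈ Rt j, f (ω * (ω₀ * w)) = (2 ^ j : ℝ)⁻¹ * ∑ ω ∈ Rt j, f (ω * w)
    congr 1
    have h0 : ω₀ ≠ 0 := by
      intro h
      have := hnorm j ω₀ hω₀
      rw [h, norm_zero] at this
      exact zero_ne_one this
    have hmaps : (Rt j).image (fun ω => ω * ω₀) = Rt j := by
      apply Finset.eq_of_subset_of_card_le
      · intro x hx
        obtain ⟨ω, hω, rfl⟩ := Finset.mem_image.1 hx
        exact hmul j ω hω ω₀ hω₀
      · rw [Finset.card_image_of_injective _ (mul_left_injective₀ h0)]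
    conv_rhs => rw [← hmaps]
    rw [Finset.sum_image (fun a _ b _ h => mul_left_injective₀ h0 h)]
    exact Finset.sum_congr rfl fun ω _ => by rw [mul_assoc]
  have hclose : ∀ w, ‖w‖ = 1 → |F z - F w| ≤ ε := by
    intro w hw
    obtain ⟨ω₀, hω₀, happ'⟩ := happ j z w hz hw
    rw [← hFrot ω₀ hω₀ w]
    show |(2 ^ j : ℝ)⁻¹ * ∑ ω ∈ Rt j, f (ω * z) - (2 ^ j : ℝ)⁻¹ * ∑ ω ∈ Rt j, f (ω * (ω₀ * w))| ≤ ε
    rw [← mul_sub, ← Finset.sum_sub_distrib, abs_mul, abs_of_pos (inv_pos.2 h2)]
    have h3 : |∑ ω ∈ Rt j, (f (ω * z) - f (ω * (ω₀ * w)))| ≤ 2 ^ j * ε := by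
      refine (Finset.abs_sum_le_sum_abs _ _).trans ?_
      have h4 : ∀ ω ∈ Rt j, |f (ω * z) - f (ω * (ω₀ * w))| ≤ ε := by
        intro ω hω
        have h5 := hfδ (ω * z) (by rw [mem_sphere_zero_iff_norm, norm_mul, hz, hnorm j ω hω, mul_one])
          (ω * (ω₀ * w)) (by
            rw [mem_sphere_zero_iff_norm, norm_mul, norm_mul, hw, hnorm j ω hω, hnorm j ω₀ hω₀]
            norm_num) (by
            rw [dist_eq_norm, ← mul_sub, norm_mul, hnorm j ω hω, one_mul]
            exact lt_of_le_of_lt happ' hj7)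
        rw [Real.dist_eq] at h5
        exact h5.le
      refine (Finset.sum_le_sum h4).trans ?_
      rw [Finset.sum_const, hcard, nsmul_eq_mul]
      push_cast
      exact le_rfl
    calc (2 ^ j : ℝ)⁻¹ * |∑ ω ∈ Rt j, (f (ω * z) - f (ω * (ω₀ * w)))|
        ≤ (2 ^ j : ℝ)⁻¹ * (2 ^ j * ε) := mul_le_mul_of_nonneg_left h3 (inv_pos.2 h2).le
      _ = ε := by rw [← mul_assoc, inv_mul_cancel₀ h2.ne', one_mul]
  have havg : Real.circleAverage F 0 1 = Real.circleAverage f 0 1 := by
    have h3 : F = (2 ^ j : ℝ)⁻¹ • (fun z => ∑ ω ∈ Rt j, f (ω * z)) := rfl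
    rw [h3, Real.circleAverage_smul, Real.circleAverage_fun_sum]
    · rw [Finset.sum_congr rfl fun ω hω => avg_rot hf (hnorm j ω hω), Finset.sum_const, hcard,
        nsmul_eq_mul, smul_eq_mul]
      push_cast
      rw [← mul_assoc, inv_mul_cancel₀ h2.ne', one_mul]
    · intro ω _
      exact cint (hf.comp (continuous_const.mul continuous_id)) 0 1
  rw [← havg]
  have hub : Real.circleAverage F 0 1 ≤ F z + ε := by
    apply Real.circleAverage_mono_on_of_le_circle (cint hFc 0 1)
    intro w hw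
    rw [mem_sphere_iff_norm, abs_one, sub_zero] at hw
    have := (abs_le.1 (hclose w hw)).1
    linarith
  have hlb : F z - ε ≤ Real.circleAverage F 0 1 := by
    have h4 := Real.circleAverage_mono (c := 0) (R := 1) (cint (continuous_const (y := F z - ε)) 0 1)
      (cint hFc 0 1) (fun w hw => by
        rw [mem_sphere_iff_norm, abs_one, sub_zero] at hw
        have := (abs_le.1 (hclose w hw)).2
        linarith)
    rwa [Real.circleAverage_const] at h4
  show |F z - Real.circleAverage F 0 1| ≤ ε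
  rw [abs_le]
  constructor <;> linarith

end Pool.Agent.Run7.h784.BG
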